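import Mathlib

/-!
For infinitely many `n` all the differences `n - 2 ^ k` (`k ≥ 1`, `2 ^ k < n`) are squarefree.

Idea: let `z = 2 ^ I`, `L = 8 z`, and let `M` be the product of the odd primes up to `z`, so that
`M ≤ 4 ^ z = 2 ^ (L / 4)`.  Consider the odd multiples `n = M (2 j + 1) < 2 ^ L`.  No prime up to
`z` divides any `n - 2 ^ k`, and the union bound over the primes `p > z` with `p ^ 2 ∣ n - 2 ^ k`
works because `∑_{p > z} 1 / p ^ 2 ≤ 8 / (I z)` by Chebyshev.
-/

namespace Pool.Agent.N726.SFP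

open Finset

/-- the primes in the dyadic block `(2 ^ i, 2 ^ (i + 1)]` -/
def block (i : ℕ) : Finset ℕ := (Finset.Ioc (2 ^ i) (2 ^ (i + 1))).filter Nat.Prime

theorem block_card (i : ℕ) : i * (block i).card ≤ 2 ^ (i + 2) := by
  have h1 : (2 ^ i) ^ (block i).card ≤ ∏ p ∈ block i, p := by
    apply Finset.pow_card_le_prod
    intro p hp
    simp only [block, Finset.mem_filter, Finset.mem_Ioc] at hp
    exact hp.1.1.le
  have h2 : ∏ p ∈ block i, p ≤ primorial (2 ^ (i + 1)) := by
    unfold primorial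
    apply Finset.prod_le_prod_of_subset_of_one_le'
    · intro p hp
      simp only [block, Finset.mem_filter, Finset.mem_Ioc, Finset.mem_range] at hp ⊢
      exact ⟨by omega, hp.2⟩
    · intro p hp _
      simp only [Finset.mem_filter] at hp
      exact hp.2.one_lt.le
  have h3 := primorial_le_four_pow (2 ^ (i + 1))
  have h4 : 2 ^ (i * (block i).card) ≤ 2 ^ (2 ^ (i + 2)) := by
    calc 2 ^ (i * (block i).card) = (2 ^ i) ^ (block i).card := by rw [pow_mul]
      _ ≤ 4 ^ (2 ^ (i + 1)) := h1.trans (h2.trans h3)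
      _ = 2 ^ (2 ^ (i + 2)) := by
        rw [show (4 : ℕ) = 2 ^ 2 by norm_num, ← pow_mul]
        congr 1
        rw [pow_succ 2 (i + 1)]; ring
  exact (Nat.pow_le_pow_iff_right (by norm_num)).mp h4

theorem block_sum (i : ℕ) (hi : 1 ≤ i) :
    ∑ p ∈ block i, (1 : ℝ) / (p : ℝ) ^ 2 ≤ 4 / (i * 2 ^ i) := by
  have h1 : ∑ p ∈ block i, (1 : ℝ) / (p : ℝ) ^ 2 ≤ (block i).card • ((1 : ℝ) / (2 ^ i) ^ 2) := by
    apply Finset.sum_le_card_nsmul
    intro p hp
    simp only [block, Finset.mem_filter, Finset.mem_Ioc] at hp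
    apply one_div_le_one_div_of_le (by positivity)
    have : ((2 : ℝ) ^ i) ≤ p := by exact_mod_cast hp.1.1.le
    gcongr
  refine h1.trans ?_
  rw [nsmul_eq_mul]
  have h2 : (i : ℝ) * (block i).card ≤ 2 ^ (i + 2) := by exact_mod_cast block_card i
  have hi0 : (0 : ℝ) < i := by exact_mod_cast hi
  have h2i : (0 : ℝ) < 2 ^ i := by positivity
  rw [mul_one_div, div_le_div_iff₀ (by positivity) (by positivity)]
  calc ((block i).card : ℝ) * (i * 2 ^ i) = (i * (block i).card) * 2 ^ i := by ring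
    _ ≤ 2 ^ (i + 2) * 2 ^ i := by gcongr
    _ = 4 * (2 ^ i) ^ 2 := by ring

/-- the primes in `(2 ^ I, 2 ^ T]` -/
def primesIoc (I T : ℕ) : Finset ℕ := (Finset.Ioc (2 ^ I) (2 ^ T)).filter Nat.Prime

theorem primesIoc_sum (I : ℕ) (hI : 1 ≤ I) (T : ℕ) (hT : I ≤ T) :
    ∑ p ∈ primesIoc I T, (1 : ℝ) / (p : ℝ) ^ 2 ≤ 8 / I * (1 / 2 ^ I - 1 / 2 ^ T) := by
  induction T, hT using Nat.le_induction with
  | base => simp [primesIoc]
  | succ T hT ih =>
    have hsplit : primesIoc I (T + 1) = primesIoc I T ∪ block T := by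
      unfold primesIoc block
      rw [← Finset.filter_union]
      congr 1
      rw [Finset.Ioc_union_Ioc_eq_Ioc]
      · exact Nat.pow_le_pow_right (by norm_num) hT
      · exact Nat.pow_le_pow_right (by norm_num) (by omega)
    have hdisj : Disjoint (primesIoc I T) (block T) := by
      unfold primesIoc block
      apply Finset.disjoint_filter_filter
      rw [Finset.disjoint_left]
      intro a ha hb
      simp only [Finset.mem_Ioc] at ha hb
      omega
    rw [hsplit, Finset.sum_union hdisj]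
    have hb := block_sum T (hI.trans hT)
    have hI0 : (0 : ℝ) < I := by exact_mod_cast hI
    have hIT : (I : ℝ) ≤ T := by exact_mod_cast hT
    have h3 : (4 : ℝ) / (T * 2 ^ T) ≤ 4 / (I * 2 ^ T) := by gcongr
    have h5 : (8 : ℝ) / (I : ℝ) * (1 / 2 ^ I - 1 / 2 ^ T) + 4 / ((I : ℝ) * 2 ^ T) =
        8 / (I : ℝ) * (1 / 2 ^ I - 1 / 2 ^ (T + 1)) := by
      rw [pow_succ]
      field_simp
      ring
    linarith

theorem primesIoc_sum' (I : ℕ) (hI : 1 ≤ I) (T : ℕ) (hT : I ≤ T) :
    ∑ p ∈ primesIoc I T, (1 : ℝ) / (p : ℝ) ^ 2 ≤ 8 / (I * 2 ^ I) := by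
  refine (primesIoc_sum I hI T hT).trans ?_
  have hI0 : (0 : ℝ) < I := by exact_mod_cast hI
  calc (8 : ℝ) / I * (1 / 2 ^ I - 1 / 2 ^ T) ≤ 8 / I * (1 / 2 ^ I) := by
        apply mul_le_mul_of_nonneg_left _ (by positivity)
        have : (0 : ℝ) < 1 / 2 ^ T := by positivity
        linarith
    _ = 8 / (I * 2 ^ I) := by
      field_simp

/-- the product of the odd primes up to `z` -/
def oddPrimorial (z : ℕ) : ℕ := ∏ p ∈ (Finset.range (z + 1)).filter (fun p => p.Prime ∧ p ≠ 2), p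

theorem oddPrimorial_pos (z : ℕ) : 0 < oddPrimorial z := by
  apply Finset.prod_pos
  intro p hp
  simp only [Finset.mem_filter] at hp
  exact hp.2.1.pos

theorem oddPrimorial_le (z : ℕ) : oddPrimorial z ≤ 4 ^ z := by
  refine le_trans ?_ (primorial_le_four_pow z)
  unfold oddPrimorial primorial
  apply Finset.prod_le_prod_of_subset_of_one_le'
  · intro p hp
    simp only [Finset.mem_filter] at hp ⊢
    exact ⟨hp.1, hp.2.1⟩
  · intro p hp _
    simp only [Finset.mem_filter] at hp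
    exact hp.2.one_lt.le

theorem dvd_oddPrimorial {z p : ℕ} (hp : p.Prime) (h2 : p ≠ 2) (hz : p ≤ z) :
    p ∣ oddPrimorial z := by
  apply Finset.dvd_prod_of_mem
  simp only [Finset.mem_filter, Finset.mem_range]
  exact ⟨by omega, hp, h2⟩

theorem prime_dvd_oddPrimorial {z p : ℕ} (hp : p.Prime) (h : p ∣ oddPrimorial z) :
    p ≤ z ∧ p ≠ 2 := by
  unfold oddPrimorial at h
  obtain ⟨q, hq, hpq⟩ := (hp.prime.dvd_finsetProd_iff _).mp h
  simp only [Finset.mem_filter, Finset.mem_range] at hq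
  have := (Nat.prime_dvd_prime_iff_eq hp hq.2.1).mp hpq
  subst this
  exact ⟨by omega, hq.2.2⟩

/-- residue class counting -/
theorem card_class (q J M a : ℕ) (hq : 0 < q) (hM : Nat.Coprime q (2 * M)) :
    (((Finset.range J).filter (fun j => M * (2 * j + 1) ≡ a [MOD q])).card : ℝ) ≤ J / q + 1 := by
  rcases Finset.eq_empty_or_nonempty
    ((Finset.range J).filter (fun j => M * (2 * j + 1) ≡ a [MOD q])) with h | ⟨j0, hj0⟩
  · rw [h]; simp; positivity
  · simp only [Finset.mem_filter, Finset.mem_range] at hj0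
    have hsub : (Finset.range J).filter (fun j => M * (2 * j + 1) ≡ a [MOD q]) ⊆
        (Finset.range J).filter (fun j => j ≡ j0 [MOD q]) := by
      intro j hj
      simp only [Finset.mem_filter, Finset.mem_range] at hj ⊢
      refine ⟨hj.1, ?_⟩
      have h1 : M * (2 * j + 1) ≡ M * (2 * j0 + 1) [MOD q] := hj.2.trans hj0.2.symm
      have h2 : (2 * M) * j + M ≡ (2 * M) * j0 + M [MOD q] := by
        have e1 : (2 * M) * j + M = M * (2 * j + 1) := by ring
        have e2 : (2 * M) * j0 + M = M * (2 * j0 + 1) := by ring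
        rw [e1, e2]; exact h1
      have h3 := Nat.ModEq.add_right_cancel' M h2
      exact Nat.ModEq.cancel_left_of_coprime hM h3
    have hcard := Finset.card_le_card hsub
    have hcount : ((Finset.range J).filter (fun j => j ≡ j0 [MOD q])).card =
        Nat.count (· ≡ j0 [MOD q]) J := by
      rw [Nat.count_eq_card_filter_range]
    have h4 := Nat.count_modEq_card J hq j0
    have h5 : Nat.count (· ≡ j0 [MOD q]) J ≤ J / q + 1 := by
      rw [h4]; split_ifs <;> omega
    have h6 : ((J / q : ℕ) : ℝ) ≤ (J : ℝ) / q := Nat.cast_div_le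
    have h7 : (((Finset.range J).filter (fun j => M * (2 * j + 1) ≡ a [MOD q])).card : ℝ) ≤
        ((J / q : ℕ) : ℝ) + 1 := by
      exact_mod_cast hcard.trans (hcount.le.trans h5)
    linarith

theorem main (I : ℕ) (hI : 200 ≤ I) :
    ∃ n : ℕ, oddPrimorial (2 ^ I) ≤ n ∧
      ∀ k : ℕ, 1 ≤ k → 2 ^ k < n → Squarefree (n - 2 ^ k) := by
  set z := 2 ^ I with hz
  set M := oddPrimorial z with hM
  set J := 2 ^ (6 * z - 1) with hJ
  have hzbig : 200 < z := by
    calc 200 < 2 ^ 8 := by norm_num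
      _ ≤ 2 ^ I := Nat.pow_le_pow_right (by norm_num) (by omega)
  have hMpos : 0 < M := oddPrimorial_pos z
  have hMle : M ≤ 2 ^ (2 * z) := by
    have := oddPrimorial_le z
    rwa [show (4 : ℕ) = 2 ^ 2 by norm_num, ← pow_mul] at this
  have hn_lt : ∀ j < J, M * (2 * j + 1) < 2 ^ (8 * z) := by
    intro j hj
    have h1 : 2 * j + 1 < 2 * J := by omega
    have h2 : 2 * J = 2 ^ (6 * z) := by
      rw [hJ, ← pow_succ']; congr 1; omega
    calc M * (2 * j + 1) < M * (2 * J) := by
          exact Nat.mul_lt_mul_of_pos_left h1 hMpos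
      _ = M * 2 ^ (6 * z) := by rw [h2]
      _ ≤ 2 ^ (2 * z) * 2 ^ (6 * z) := Nat.mul_le_mul_right _ hMle
      _ = 2 ^ (8 * z) := by rw [← pow_add]; congr 1; omega
  by_contra hcon
  push Not at hcon
  -- every j is bad
  have hbad : ∀ j ∈ Finset.range J, ∃ k ∈ Finset.range (8 * z), ∃ p ∈ primesIoc I (4 * z),
      M * (2 * j + 1) ≡ 2 ^ k [MOD p ^ 2] := by
    intro j hj
    rw [Finset.mem_range] at hj
    obtain ⟨k, hk1, hk2, hk3⟩ := hcon (M * (2 * j + 1)) (Nat.le_mul_of_pos_right _ (by omega))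
    have hlt := hn_lt j hj
    refine ⟨k, ?_, ?_⟩
    · rw [Finset.mem_range]
      exact (Nat.pow_lt_pow_iff_right (by norm_num)).mp (hk2.trans hlt)
    · rw [Nat.squarefree_iff_prime_squarefree] at hk3
      push Not at hk3
      obtain ⟨p, hp, hpd⟩ := hk3
      have hpdvd : p ∣ M * (2 * j + 1) - 2 ^ k := (Dvd.intro _ rfl : p ∣ p * p).trans hpd
      have hp2 : p ≠ 2 := by
        rintro rfl
        have hodd : ¬ 2 ∣ M * (2 * j + 1) := by
          intro h
          rcases (Nat.Prime.dvd_mul Nat.prime_two).mp h with h | h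
          · exact (prime_dvd_oddPrimorial Nat.prime_two h).2 rfl
          · omega
        have heven : 2 ∣ 2 ^ k := dvd_pow_self 2 (by omega)
        exact hodd ((Nat.dvd_sub_iff_left hk2.le heven).mp hpdvd)
      have hpz : z < p := by
        by_contra hle
        have hle : p ≤ z := by omega
        have h1 : p ∣ M * (2 * j + 1) := (dvd_oddPrimorial hp hp2 hle).mul_right _
        have h2 : p ∣ 2 ^ k := (Nat.dvd_sub_iff_right hk2.le h1).mp hpdvd
        have := (Nat.prime_dvd_prime_iff_eq hp Nat.prime_two).mp (hp.dvd_of_dvd_pow h2)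
        exact hp2 this
      refine ⟨p, ?_, ?_⟩
      · simp only [primesIoc, Finset.mem_filter, Finset.mem_Ioc]
        refine ⟨⟨hpz, ?_⟩, hp⟩
        have h1 : p * p ≤ M * (2 * j + 1) - 2 ^ k := Nat.le_of_dvd (by omega) hpd
        have h2 : p * p < 2 ^ (4 * z) * 2 ^ (4 * z) := by
          rw [← pow_add]
          have : 4 * z + 4 * z = 8 * z := by ring
          rw [this]
          have h3 : M * (2 * j + 1) - 2 ^ k ≤ M * (2 * j + 1) := Nat.sub_le _ _
          exact lt_of_le_of_lt (h1.trans h3) hlt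
        exact (Nat.mul_self_lt_mul_self_iff.mp h2).le
      · have : 2 ^ k ≡ M * (2 * j + 1) [MOD p ^ 2] := by
          rw [Nat.modEq_iff_dvd' hk2.le, sq]; exact hpd
        exact this.symm
  -- union bound
  have hunion : (Finset.range J) ⊆ (Finset.range (8 * z)).biUnion (fun k =>
      (primesIoc I (4 * z)).biUnion (fun p =>
        (Finset.range J).filter (fun j => M * (2 * j + 1) ≡ 2 ^ k [MOD p ^ 2]))) := by
    intro j hj
    obtain ⟨k, hk, p, hp, h⟩ := hbad j hj
    simp only [Finset.mem_biUnion, Finset.mem_filter]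
    exact ⟨k, hk, p, hp, hj, h⟩
  have hcard : (J : ℝ) ≤ ∑ k ∈ Finset.range (8 * z), ∑ p ∈ primesIoc I (4 * z),
      ((J : ℝ) / (p : ℝ) ^ 2 + 1) := by
    have h1 : J ≤ ∑ k ∈ Finset.range (8 * z), ∑ p ∈ primesIoc I (4 * z),
        ((Finset.range J).filter (fun j => M * (2 * j + 1) ≡ 2 ^ k [MOD p ^ 2])).card := by
      calc J = (Finset.range J).card := (Finset.card_range J).symm
        _ ≤ _ := Finset.card_le_card hunion
        _ ≤ _ := Finset.card_biUnion_le
        _ ≤ _ := Finset.sum_le_sum (fun k _ => Finset.card_biUnion_le)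
    have h2 : (J : ℝ) ≤ ∑ k ∈ Finset.range (8 * z), ∑ p ∈ primesIoc I (4 * z),
        (((Finset.range J).filter (fun j => M * (2 * j + 1) ≡ 2 ^ k [MOD p ^ 2])).card : ℝ) := by
      exact_mod_cast h1
    refine h2.trans ?_
    apply Finset.sum_le_sum
    intro k _
    apply Finset.sum_le_sum
    intro p hp
    simp only [primesIoc, Finset.mem_filter, Finset.mem_Ioc] at hp
    have hcop : Nat.Coprime (p ^ 2) (2 * M) := by
      apply Nat.Coprime.pow_left
      apply (Nat.Prime.coprime_iff_not_dvd hp.2).mpr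
      intro h
      rcases (Nat.Prime.dvd_mul hp.2).mp h with h | h
      · have := Nat.le_of_dvd (by norm_num) h
        omega
      · have := (prime_dvd_oddPrimorial hp.2 h).1
        omega
    have := card_class (p ^ 2) J M (2 ^ k) (pow_pos hp.2.pos 2) hcop
    simpa using this
  have hsum := primesIoc_sum' I (by omega) (4 * z) (by
    have : I < 2 ^ I := Nat.lt_two_pow_self
    omega)
  have hinner : ∑ p ∈ primesIoc I (4 * z), ((J : ℝ) / (p : ℝ) ^ 2 + 1) ≤
      (J : ℝ) * (8 / ((I : ℝ) * 2 ^ I)) + (2 : ℝ) ^ (4 * z) := by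
    rw [Finset.sum_add_distrib]
    have h1 : ∑ p ∈ primesIoc I (4 * z), (J : ℝ) / (p : ℝ) ^ 2 =
        J * ∑ p ∈ primesIoc I (4 * z), (1 : ℝ) / (p : ℝ) ^ 2 := by
      rw [Finset.mul_sum]; congr 1; ext p; ring
    rw [h1]
    have h2 : ∑ p ∈ primesIoc I (4 * z), (1 : ℝ) ≤ (2 : ℝ) ^ (4 * z) := by
      rw [Finset.sum_const, nsmul_eq_mul, mul_one]
      have : (primesIoc I (4 * z)).card ≤ 2 ^ (4 * z) := by
        calc _ ≤ (Finset.Ioc (2 ^ I) (2 ^ (4 * z))).card := Finset.card_filter_le _ _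
          _ = 2 ^ (4 * z) - 2 ^ I := by simp
          _ ≤ 2 ^ (4 * z) := Nat.sub_le _ _
      exact_mod_cast this
    have hJ0 : (0 : ℝ) ≤ J := by positivity
    have := mul_le_mul_of_nonneg_left hsum hJ0
    linarith
  rw [Finset.sum_const, Finset.card_range, nsmul_eq_mul] at hcard
  have hz0 : (0 : ℝ) < z := by
    have : 0 < z := by omega
    exact_mod_cast this
  have hzr : (2 : ℝ) ^ I = z := by rw [hz]; push_cast; rfl
  have hIr : (200 : ℝ) ≤ I := by exact_mod_cast hI
  have h8z : ((8 * z : ℕ) : ℝ) = 8 * z := by push_cast; ring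
  rw [h8z] at hcard
  have hfin : (J : ℝ) ≤ 8 * (z : ℝ) * ((J : ℝ) * (8 / ((I : ℝ) * z)) + (2 : ℝ) ^ (4 * z)) := by
    rw [hzr] at hinner
    exact hcard.trans (mul_le_mul_of_nonneg_left hinner (by positivity))
  have hJ1 : (0 : ℝ) < J := by
    have : 0 < J := by positivity
    exact_mod_cast this
  have hA : 8 * (z : ℝ) * ((J : ℝ) * (8 / ((I : ℝ) * z))) ≤ (J : ℝ) / 2 := by
    have : 8 * (z : ℝ) * ((J : ℝ) * (8 / ((I : ℝ) * z))) = (J : ℝ) * (64 / I) := by
      field_simp
      ring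
    rw [this]
    have h64 : (64 : ℝ) / I ≤ 1 / 2 := by
      rw [div_le_div_iff₀ (by linarith) (by norm_num)]
      linarith
    calc (J : ℝ) * (64 / I) ≤ J * (1 / 2) := mul_le_mul_of_nonneg_left h64 hJ1.le
      _ = J / 2 := by ring
  have hB : 8 * (z : ℝ) * (2 : ℝ) ^ (4 * z) < (J : ℝ) / 2 := by
    have hnat : 16 * z * 2 ^ (4 * z) < J := by
      have h1 : z < 2 ^ z := Nat.lt_two_pow_self
      calc 16 * z * 2 ^ (4 * z) < 16 * 2 ^ z * 2 ^ (4 * z) := by
            apply Nat.mul_lt_mul_of_pos_right _ (by positivity)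
            omega
        _ = 2 ^ (4 + z + 4 * z) := by
          rw [pow_add, pow_add]; norm_num
        _ ≤ J := Nat.pow_le_pow_right (by norm_num) (by omega)
    have : (16 : ℝ) * z * 2 ^ (4 * z) < J := by exact_mod_cast hnat
    linarith
  have : (J : ℝ) < J := by
    have e : 8 * (z : ℝ) * ((J : ℝ) * (8 / ((I : ℝ) * z)) + (2 : ℝ) ^ (4 * z)) =
      8 * (z : ℝ) * ((J : ℝ) * (8 / ((I : ℝ) * z))) + 8 * (z : ℝ) * (2 : ℝ) ^ (4 * z) := by ring
    linarith
  exact lt_irrefl _ this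

theorem infinite : {n : ℕ | 3 ≤ n ∧ ∀ k : ℕ, 1 ≤ k → 2 ^ k < n → Squarefree (n - 2 ^ k)}.Infinite := by
  rw [Set.infinite_iff_exists_gt] 
  intro B
  obtain ⟨q, hq, hqp⟩ := Nat.exists_infinite_primes (B + 3)
  obtain ⟨n, hn, hsq⟩ := main (q + 200) (by omega)
  have h1 : q ≤ oddPrimorial (2 ^ (q + 200)) := by
    apply Nat.le_of_dvd (oddPrimorial_pos _)
    apply dvd_oddPrimorial hqp (by omega)
    have : q + 200 < 2 ^ (q + 200) := Nat.lt_two_pow_self
    omega
  exact ⟨n, ⟨by omega, hsq⟩, by omega⟩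

end Pool.Agent.N726.SFP
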